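import Pool.Agent.K6.H39.QNR
import Mathlib

/-!
# The Crouzeix-type bound for scaled q-numerical ranges

For every `n × n` complex matrix `A`, every `q` with `0 < |q| ≤ 1` (and `|q| = 1` when `n = 1`,
which is exactly when `Ω_q` is nonempty) and every polynomial `p`,
`‖p(A)‖ ≤ c(q) sup_{Ω_q} |p|` with `c(q) = max 1 (2|q| / (1 + √(1 - |q|²)))`.
-/

set_option autoImplicit false

open Polynomial

namespace Pool.Agent.Results.MP_16d611_an.CrouzeixQBound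

/-- The inner product `⟨x, y⟩ = ∑ xᵢ conj(yᵢ)`, linear in the first argument. -/
noncomputable def ip {n : ℕ} (x y : EuclideanSpace ℂ (Fin n)) : ℂ :=
  ∑ i, x i * (starRingEnd ℂ) (y i)

/-- The `q`-numerical range `W_q(A) = {⟨A x, y⟩ : ‖x‖ = ‖y‖ = 1, ⟨x, y⟩ = q}`. -/
def qNumRange {n : ℕ} (A : Matrix (Fin n) (Fin n) ℂ) (q : ℂ) : Set ℂ :=
  {w | ∃ x y : EuclideanSpace ℂ (Fin n), ‖x‖ = 1 ∧ ‖y‖ = 1 ∧ ip x y = q ∧
    ip (Matrix.toEuclideanCLM (n := Fin n) (𝕜 := ℂ) A x) y = w}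

/-- The scaled `q`-numerical range `Ω_q = W_q(A) / q`. -/
def scaledRange {n : ℕ} (A : Matrix (Fin n) (Fin n) ℂ) (q : ℂ) : Set ℂ :=
  {z | ∃ w ∈ qNumRange A q, w / q = z}

/-- The constant `c(q) = max (1, 2|q| / (1 + √(1 - |q|²)))`. -/
noncomputable def c (q : ℂ) : ℝ := max 1 (2 * ‖q‖ / (1 + Real.sqrt (1 - ‖q‖ ^ 2)))

theorem ip_eq {n : ℕ} (x y : EuclideanSpace ℂ (Fin n)) : ip x y = inner ℂ y x := by
  simp [ip, PiLp.inner_apply]

theorem scaledRange_eq {n : ℕ} (A : Matrix (Fin n) (Fin n) ℂ) (q : ℂ) :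
    scaledRange A q = Pool.Agent.K6.H39.QNR.Om (Matrix.toEuclideanCLM (n := Fin n) (𝕜 := ℂ) A) q := by
  ext z
  simp only [scaledRange, qNumRange, Pool.Agent.K6.H39.QNR.Om, ip_eq, Set.mem_ofPred_eq]
  constructor
  · rintro ⟨w, ⟨x, y, hx, hy, hxy, hw⟩, hz⟩
    exact ⟨x, y, hx, hy, hxy, by rw [hw, hz]⟩
  · rintro ⟨x, y, hx, hy, hxy, hz⟩
    exact ⟨_, ⟨x, y, hx, hy, hxy, rfl⟩, hz⟩

theorem exists_orth {n : ℕ} (hn : 2 ≤ n) (x : EuclideanSpace ℂ (Fin n)) :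
    ∃ e : EuclideanSpace ℂ (Fin n), ‖e‖ = 1 ∧ inner ℂ e x = 0 := by
  have hk : LinearMap.ker (innerSL ℂ x).toLinearMap ≠ ⊥ := by
    apply LinearMap.ker_ne_bot_of_finrank_lt
    simp
    omega
  obtain ⟨v, hv, hv0⟩ := (Submodule.ne_bot_iff _).mp hk
  have hv1 : inner ℂ x v = 0 := by simpa using hv
  have hvn : 0 < ‖v‖ := norm_pos_iff.mpr hv0
  refine ⟨((‖v‖⁻¹ : ℝ) : ℂ) • v, ?_, ?_⟩
  · rw [norm_smul, Complex.norm_real, norm_inv, norm_norm, inv_mul_cancel₀ hvn.ne']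
  · rw [inner_smul_left, ← inner_conj_symm, hv1]; simp

theorem result (n : ℕ) (hn : 1 ≤ n) (A : Matrix (Fin n) (Fin n) ℂ) (q : ℂ) (hq0 : q ≠ 0)
    (hq1 : ‖q‖ ≤ 1) (hn1 : n = 1 → ‖q‖ = 1) :
    (scaledRange A q).Nonempty ∧ Bornology.IsBounded (scaledRange A q) ∧
      ∀ p : ℂ[X], ‖Matrix.toEuclideanCLM (n := Fin n) (𝕜 := ℂ) (aeval A p)‖ ≤
        c q * sSup ((fun z => ‖p.eval z‖) '' scaledRange A q) := by
  have hq0' : 0 < ‖q‖ := norm_pos_iff.mpr hq0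
  have : Nonempty (Fin n) := ⟨⟨0, hn⟩⟩
  have hdim : ‖q‖ < 1 → ∀ x : EuclideanSpace ℂ (Fin n),
      ∃ e : EuclideanSpace ℂ (Fin n), ‖e‖ = 1 ∧ inner ℂ e x = 0 := by
    intro h x
    apply exists_orth
    rcases Nat.lt_or_ge n 2 with h2 | h2
    · exfalso
      have := hn1 (by omega)
      linarith
    · exact h2
  set T := Matrix.toEuclideanCLM (n := Fin n) (𝕜 := ℂ) A with hT
  have hne : (scaledRange A q).Nonempty := by
    rw [scaledRange_eq]
    obtain ⟨x, hx⟩ := exists_norm_eq (EuclideanSpace ℂ (Fin n)) zero_le_one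
    have hxx : inner ℂ x x = (1 : ℂ) := by
      rw [inner_self_eq_norm_sq_to_K, hx]; simp
    rcases hq1.eq_or_lt with h | h
    · refine ⟨_, x, (starRingEnd ℂ q) • x, hx, ?_, ?_, rfl⟩
      · rw [norm_smul, Complex.norm_conj, h, hx, mul_one]
      · rw [inner_smul_left, hxx]; simp
    · obtain ⟨e, he, hex⟩ := hdim h x
      refine ⟨_, x, ((Real.sqrt (1 - ‖q‖ ^ 2) : ℝ) : ℂ) • e + (starRingEnd ℂ q) • x, hx, ?_, ?_, rfl⟩
      · have h0 : inner ℂ (((Real.sqrt (1 - ‖q‖ ^ 2) : ℝ) : ℂ) • e) ((starRingEnd ℂ q) • x) = 0 := by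
          rw [inner_smul_left, inner_smul_right, hex]; simp
        have h1 := norm_add_sq_eq_norm_sq_add_norm_sq_of_inner_eq_zero _ _ h0
        rw [norm_smul, norm_smul, he, hx, Complex.norm_real, Complex.norm_conj,
          Real.norm_of_nonneg (Real.sqrt_nonneg _), mul_one, mul_one,
          Real.mul_self_sqrt (by nlinarith)] at h1
        have h2 := norm_nonneg (((Real.sqrt (1 - ‖q‖ ^ 2) : ℝ) : ℂ) • e + (starRingEnd ℂ q) • x)
        nlinarith
      · rw [inner_add_left, inner_smul_left, inner_smul_left, hex, hxx]; simp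
  have hbd : Bornology.IsBounded (scaledRange A q) := by
    rw [isBounded_iff_forall_norm_le]
    refine ⟨‖T‖ / ‖q‖, ?_⟩
    rw [scaledRange_eq]
    rintro z ⟨x, y, hx, hy, -, rfl⟩
    rw [norm_div]
    gcongr
    refine (norm_inner_le_norm _ _).trans ?_
    rw [hy, one_mul]
    have := T.le_opNorm x
    rwa [hx, mul_one] at this
  refine ⟨hne, hbd, ?_⟩
  intro p
  have hbdd : BddAbove ((fun z => ‖p.eval z‖) '' scaledRange A q) := by
    have h1 : IsCompact (closure (scaledRange A q)) := hbd.isCompact_closure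
    have h2 := (h1.image (f := fun z => ‖p.eval z‖) (by fun_prop)).bddAbove
    exact h2.mono (Set.image_mono subset_closure)
  have haev : Matrix.toEuclideanCLM (n := Fin n) (𝕜 := ℂ) (aeval A p) = aeval T p :=
    (Polynomial.aeval_algHom_apply
      ((Matrix.toEuclideanCLM (n := Fin n) (𝕜 := ℂ)).toAlgEquiv.toAlgHom) A p).symm
  set s : ℝ := Real.sqrt (1 - ‖q‖ ^ 2) with hs
  have hs0 : 0 ≤ s := Real.sqrt_nonneg _
  have hs2 : s ^ 2 = 1 - ‖q‖ ^ 2 := Real.sq_sqrt (by nlinarith)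
  have hmain := Pool.Agent.K6.H39.QNR.main_bound T q hq0' hq1 hdim ((1 + s) / ‖q‖)
    (by rw [le_div_iff₀ hq0']; linarith)
    (by
      rw [inv_div]
      have h1 : 0 < 1 + s := by linarith
      have e : ((1 + s) / ‖q‖ + ‖q‖ / (1 + s)) / 2 = 1 / ‖q‖ := by
        field_simp
        nlinarith
      exact e.le)
    p (sSup ((fun z => ‖p.eval z‖) '' scaledRange A q))
    (by
      intro z hz
      rw [← scaledRange_eq] at hz
      exact le_csSup hbdd ⟨z, hz, rfl⟩)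
  rw [haev]
  have hc : max 1 (2 / ((1 + s) / ‖q‖)) = c q := by
    rw [c, ← hs, div_div_eq_mul_div]
  rw [hc] at hmain
  exact hmain

end Pool.Agent.Results.MP_16d611_an.CrouzeixQBound
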